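import Pool.Agent.Helper35.AT.Final
import Pool.Agent.Helper35.AT.FPT

/-!
# COLORING on AT-free graphs is W[1]-hard in the number of colours

A polynomial-time reduction from CLIQUE with parameter `k` to COLORING on AT-free graphs with
`7 k` colours, and its consequence for the machines of Q1.
-/

set_option autoImplicit false

namespace Pool.Agent.Results.MP_9ea300_lc.CliqueReduction

/-- `G` is AT-free: it has no asteroidal triple (for each two of three vertices, a walk joining
them and avoiding the closed neighbourhood of the third). -/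
def ATFree {n : ℕ} (G : SimpleGraph (Fin n)) : Prop :=
  ¬ ∃ x y z : Fin n,
    (∃ p : G.Walk x y, ∀ v ∈ p.support, v ≠ z ∧ ¬ G.Adj z v) ∧
    (∃ p : G.Walk y z, ∀ v ∈ p.support, v ≠ x ∧ ¬ G.Adj x v) ∧
    (∃ p : G.Walk x z, ∀ v ∈ p.support, v ≠ y ∧ ¬ G.Adj y v)

/-- `H` has a clique with `k` vertices. -/
def HasClique {n : ℕ} (H : SimpleGraph (Fin n)) (k : ℕ) : Prop :=
  ∃ s : Finset (Fin n), s.card = k ∧ ∀ a ∈ s, ∀ b ∈ s, a ≠ b → H.Adj a b

open Classical in
/-- The word encoding a graph `G` on `n` vertices and a number `k`: `k` in unary, the separator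
`false`, the adjacency matrix of `G` row by row. -/
noncomputable def word (k : ℕ) {n : ℕ} (G : SimpleGraph (Fin n)) : List Bool :=
  List.replicate k true ++ false :: (List.finRange n).flatMap
    (fun i => (List.finRange n).map (fun j => decide (G.Adj i j)))

open Classical Turing in
/-- The positive answer to Q1, as in the frozen statement: a Turing machine and computable `f`
deciding `k`-colourability of AT-free graphs on `n` vertices within `f k * (n + 1) ^ c` steps. -/
def ColoringFPT : Prop :=
  ∃ (tm : FinTM2) (ein : Bool → tm.Γ tm.k₀) (eout : Bool → tm.Γ tm.k₁) (f : ℕ → ℕ) (c : ℕ),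
    Computable f ∧ eout true ≠ eout false ∧
    ∀ (n : ℕ) (G : SimpleGraph (Fin n)), ATFree G → ∀ k : ℕ,
      Nonempty (TM2OutputsInTime tm ((word k G).map ein) (some [eout (decide (G.Colorable k))])
        (f k * (n + 1) ^ c))

open Classical Turing in
/-- CLIQUE is fixed-parameter tractable, in the same sense: a Turing machine and computable `f`
deciding whether a graph on `n` vertices has a clique with `k` vertices within
`f k * (n + 1) ^ c` steps. -/
def CliqueFPT : Prop :=
  ∃ (tm : FinTM2) (ein : Bool → tm.Γ tm.k₀) (eout : Bool → tm.Γ tm.k₁) (f : ℕ → ℕ) (c : ℕ),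
    Computable f ∧ eout true ≠ eout false ∧
    ∀ (n : ℕ) (G : SimpleGraph (Fin n)) (k : ℕ),
      Nonempty (TM2OutputsInTime tm ((word k G).map ein) (some [eout (decide (HasClique G k))])
        (f k * (n + 1) ^ c))

theorem hasClique_iff {n : ℕ} (H : SimpleGraph (Fin n)) (k : ℕ) :
    HasClique H k ↔ ¬ H.CliqueFree k := by
  unfold SimpleGraph.CliqueFree HasClique
  push Not
  refine exists_congr fun s => ?_
  rw [SimpleGraph.isNClique_iff, SimpleGraph.isClique_iff]
  constructor
  · rintro ⟨h4, h5⟩
    exact ⟨fun a ha b hb hab => h5 a (Finset.mem_coe.1 ha) b (Finset.mem_coe.1 hb) hab, h4⟩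
  · rintro ⟨h4, h5⟩
    exact ⟨h5, fun a ha b hb hab => h4 (Finset.mem_coe.2 ha) (Finset.mem_coe.2 hb) hab⟩

open Turing in
/-- COLORING on AT-free graphs is W[1]-hard in the number of colours. A map `f` of binary words,
computed by a Turing machine in polynomial time, takes the word of every instance `(H, k)` of
CLIQUE to the word of an instance `(G, 7 k)` of COLORING with an AT-free graph `G`, and `G` is
`7 k`-colourable if and only if `H` has a clique with `k` vertices. In particular, a positive
answer to Q1 would make CLIQUE fixed-parameter tractable. -/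
theorem result :
    (∃ f : List Bool → List Bool,
      Nonempty (TM2ComputableInPolyTime (id : List Bool → List Bool) (id : List Bool → List Bool)
        f) ∧
      ∀ (k n : ℕ) (H : SimpleGraph (Fin n)), ∃ (m : ℕ) (G : SimpleGraph (Fin m)),
        ATFree G ∧ f (word k H) = word (7 * k) G ∧ (G.Colorable (7 * k) ↔ HasClique H k)) ∧
    (ColoringFPT → CliqueFPT) := by
  obtain ⟨f, hf, h⟩ := Pool.Agent.Helper35.AT.main.1
  have h' : ∀ (k n : ℕ) (H : SimpleGraph (Fin n)), ∃ (m : ℕ) (G : SimpleGraph (Fin m)),
      ATFree G ∧ f (word k H) = word (7 * k) G ∧ (G.Colorable (7 * k) ↔ HasClique H k) := by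
    intro k n H
    obtain ⟨m, G, h1, h2, h3⟩ := h k n H
    exact ⟨m, G, h1, h2, h3.trans (hasClique_iff H k).symm⟩
  refine ⟨⟨f, hf, h'⟩, ?_⟩
  rintro ⟨tm, ein, eout, g, c, hg, he, hd⟩
  have h1 : Pool.Agent.Helper35.AT.FPT (fun _ G => ATFree G) (fun _ G k => G.Colorable k) := by
    refine ⟨tm, ein, eout, g, c, hg, he, fun n G hG k d => ?_⟩
    have := hd n G hG k
    rw [Subsingleton.elim (Classical.propDecidable (G.Colorable k)) d] at this
    exact this
  obtain ⟨tm', ein', eout', g', c', hg', he', hd'⟩ :=
    Pool.Agent.Helper35.AT.fpt_of_reduction (fun _ G => ATFree G) (fun _ _ => True)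
      (fun _ G k => G.Colorable k) (fun _ G k => HasClique G k) f hf
      (fun k n H _ => h' k n H) h1
  exact ⟨tm', ein', eout', g', c', hg', he', fun n G k => hd' n G trivial k _⟩

end Pool.Agent.Results.MP_9ea300_lc.CliqueReduction
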