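import Pool.Agent.Helper35.AT.Final

/-!
# COLORING on AT-free graphs is NP-hard
-/

set_option autoImplicit false

namespace Pool.Agent.Results.MP_9ea300_lc.NPHardness

/-- `G` is AT-free: it has no asteroidal triple. -/
def ATFree {n : ℕ} (G : SimpleGraph (Fin n)) : Prop :=
  ¬ ∃ x y z : Fin n,
    (∃ p : G.Walk x y, ∀ v ∈ p.support, v ≠ z ∧ ¬ G.Adj z v) ∧
    (∃ p : G.Walk y z, ∀ v ∈ p.support, v ≠ x ∧ ¬ G.Adj x v) ∧
    (∃ p : G.Walk x z, ∀ v ∈ p.support, v ≠ y ∧ ¬ G.Adj y v)

open Classical in
/-- The word encoding a graph `G` on `n` vertices and a number `k`: `k` in unary, the separator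
`false`, the adjacency matrix of `G` row by row. -/
noncomputable def word (k : ℕ) {n : ℕ} (G : SimpleGraph (Fin n)) : List Bool :=
  List.replicate k true ++ false :: (List.finRange n).flatMap
    (fun i => (List.finRange n).map (fun j => decide (G.Adj i j)))

/-- COLORING restricted to AT-free graphs: the words of the pairs `(G, k)` where `G` is an AT-free
graph with a proper `k`-colouring. -/
def ATCOL : Set (List Bool) :=
  {w | ∃ (k n : ℕ) (G : SimpleGraph (Fin n)), w = word k G ∧ ATFree G ∧ G.Colorable k}

open Turing Computability in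
/-- The class NP: certificates of polynomial length with a polynomial time verifier. -/
def NPLang (L : Set (List Bool)) : Prop :=
  ∃ (R : List Bool × List Bool → Bool) (p : Polynomial ℕ),
    Nonempty (TM2ComputableInPolyTime
      (encodingProd (encodingList Bool) (encodingList Bool)).encode encodeBool R) ∧
    ∀ w, w ∈ L ↔ ∃ y : List Bool, y.length ≤ p.eval w.length ∧ R (w, y) = true

open Turing in
/-- COLORING restricted to AT-free graphs is NP-hard: every language in NP reduces to it by a map
computed by a Turing machine in polynomial time; all values of the map are words of pairs `(G, k)`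
with `G` AT-free. -/
theorem result (L : Set (List Bool)) (hL : NPLang L) :
    ∃ f : List Bool → List Bool,
      Nonempty (TM2ComputableInPolyTime (id : List Bool → List Bool) (id : List Bool → List Bool)
        f) ∧
      (∀ w, ∃ (k n : ℕ) (G : SimpleGraph (Fin n)), f w = word k G ∧ ATFree G) ∧
      ∀ w, w ∈ L ↔ f w ∈ ATCOL := by
  obtain ⟨f, hf, h1, h2⟩ := Pool.Agent.Helper35.AT.main.2 L hL
  exact ⟨f, hf, h1, h2⟩

end Pool.Agent.Results.MP_9ea300_lc.NPHardness
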